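import Pool.Agent.Helper16.OG.Stmts

set_option autoImplicit false

/-!
Row DR of the project OG (MP_c38f4a_co): one non trivial condition lowers the dimension.
-/

namespace Pool.Agent.Helper16.OG

open Finset

open scoped Classical

universe u

theorem st_DR : ST_DR.{u} := by
  intro α _ r N Y hex
  obtain ⟨H, hH, y, hy, hyH⟩ := hex
  let ρ : (W r N Y) →ₗ[ZMod 2] ({x // x ∈ Y} → ZMod 2) :=
    (LinearMap.funLeft (ZMod 2) (ZMod 2) (Subtype.val : {x // x ∈ Y} → α)).comp (W r N Y).subtype
  have hinj : Function.Injective ρ := by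
    intro S T hST
    apply Subtype.ext
    funext x
    by_cases hx : x ∈ Y
    · exact congrFun hST ⟨x, hx⟩
    · rw [S.2.1 x hx, T.2.1 x hx]
  have hne : LinearMap.range ρ ≠ ⊤ := by
    intro htop
    let e : {x // x ∈ Y} → ZMod 2 := fun x => if (x : α) = y then 1 else 0
    have hmem : e ∈ LinearMap.range ρ := by
      rw [htop]
      exact Submodule.mem_top
    obtain ⟨T, hT⟩ := hmem
    have h1 := T.2.2 H hH
    have h2 : ∀ x (hx : x ∈ Y), (T : α → ZMod 2) x = if x = y then 1 else 0 := by
      intro x hx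
      exact congrFun hT ⟨x, hx⟩
    have h5 : ∑ x ∈ Y.filter (fun x => r x H), (T : α → ZMod 2) x =
        ∑ x ∈ Y.filter (fun x => r x H), if x = y then 1 else 0 :=
      sum_congr rfl fun x hx => h2 x (mem_filter.1 hx).1
    rw [h5, sum_ite_eq', if_pos (mem_filter.2 ⟨hy, hyH⟩)] at h1
    exact one_ne_zero h1
  have h6 := Submodule.finrank_lt hne
  rw [LinearMap.finrank_range_of_inj hinj, Module.finrank_fintype_fun_eq_card,
    Fintype.card_coe] at h6
  omega

end Pool.Agent.Helper16.OG
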