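import Pool.Agent.Helper16.OG.Stmts

set_option autoImplicit false

/-!
Row SUM of the project OG (MP_c38f4a_co): the summation.
-/

namespace Pool.Agent.Helper16.OG

open Finset

theorem Icc_one_eq_Ico (n : ℕ) : Icc 1 n = Ico 1 (n + 1) := by
  ext x
  simp only [mem_Icc, mem_Ico]
  omega

theorem sum_key (a w : ℕ → ℤ) (E : ℕ → ℕ → ℤ) (n : ℕ) (hn : 1 ≤ n) :
    (∀ i, 1 ≤ i → i + 1 ≤ n → a i ≤ w i + w (i + 1)) →
    (∀ i, 1 ≤ i → i + 1 ≤ n → 2 * w i + 2 * a (i + 1) ≤ E i (i + 1) + 2) →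
    (∀ i, 1 ≤ i → i + 2 ≤ n → E i (i + 1) + E (i + 1) (i + 2) ≤ E i (i + 2) + 2 * a (i + 1)) →
    (∀ i j, 1 ≤ i → i + 3 ≤ j → j ≤ n → 2 * a i + 2 * a j ≤ E i j + 4) →
    (2 * (n : ℤ) - 3) * ∑ i ∈ Icc 1 n, a i - 2 * (n : ℤ) * ((n : ℤ) - 2) +
      (w 1 - w n + a n - 2) ≤ ∑ j ∈ Icc 1 n, ∑ i ∈ Ico 1 j, E i j := by
  induction n, hn using Nat.le_induction with
  | base =>
    intro _ _ _ _
    simp
  | succ n hn ih =>
    intro h1 h2 h3 h4
    have ih' := ih (fun i hi hi' => h1 i hi (by omega)) (fun i hi hi' => h2 i hi (by omega))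
      (fun i hi hi' => h3 i hi (by omega)) (fun i j hi hij hj => h4 i j hi hij (by omega))
    rw [sum_Icc_succ_top (by omega), sum_Icc_succ_top (by omega)]
    have hA := h1 n hn (by omega)
    have hE := h2 n hn (by omega)
    rcases Nat.lt_or_ge n 2 with hn2 | hn2
    · have hn1 : n = 1 := by omega
      subst hn1
      simp at ih' hA hE ⊢
      linarith
    · obtain ⟨m, rfl⟩ : ∃ m, n = m + 2 := ⟨n - 2, by omega⟩
      have hA' := h1 (m + 1) (by omega) (by omega)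
      have hE' := h2 (m + 1) (by omega) (by omega)
      have hG := h3 (m + 1) (by omega) (by omega)
      have s1 : ∑ i ∈ Ico 1 (m + 2 + 1), E i (m + 2 + 1) =
          ∑ i ∈ Ico 1 (m + 1), E i (m + 2 + 1) + E (m + 1) (m + 2 + 1) +
            E (m + 2) (m + 2 + 1) := by
        rw [sum_Ico_succ_top (by omega), sum_Ico_succ_top (by omega)]
      have s2 : ∑ i ∈ Icc 1 (m + 2), a i = ∑ i ∈ Ico 1 (m + 1), a i + a (m + 1) + a (m + 2) := by
        rw [Icc_one_eq_Ico, sum_Ico_succ_top (by omega), sum_Ico_succ_top (by omega)]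
      have s3 : ∑ i ∈ Ico 1 (m + 1), (2 * a i + 2 * a (m + 2 + 1) - 4) ≤
          ∑ i ∈ Ico 1 (m + 1), E i (m + 2 + 1) := by
        refine sum_le_sum fun i hi => ?_
        have hi' := mem_Ico.1 hi
        have := h4 i (m + 2 + 1) hi'.1 (by omega) le_rfl
        linarith
      have s4 : ∑ i ∈ Ico 1 (m + 1), (2 * a i + 2 * a (m + 2 + 1) - 4) =
          2 * ∑ i ∈ Ico 1 (m + 1), a i + (m : ℤ) * (2 * a (m + 2 + 1) - 4) := by
        rw [mul_sum]
        have : ∀ i ∈ Ico 1 (m + 1), 2 * a i + 2 * a (m + 2 + 1) - 4 =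
            2 * a i + (2 * a (m + 2 + 1) - 4) := fun i _ => by ring
        rw [sum_congr rfl this, sum_add_distrib, sum_const, Nat.card_Ico]
        simp
      rw [s1]
      rw [s4] at s3
      rw [s2] at ih' ⊢
      set S := ∑ i ∈ Ico 1 (m + 1), a i
      set R := ∑ i ∈ Ico 1 (m + 1), E i (m + 2 + 1)
      set T := ∑ j ∈ Icc 1 (m + 2), ∑ i ∈ Ico 1 j, E i j
      push_cast at ih' ⊢
      have e1 : m + 1 + 1 = m + 2 := rfl
      have e2 : m + 1 + 2 = m + 2 + 1 := rfl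
      rw [e1] at hA' hE' hG
      rw [e2] at hG
      nlinarith [ih', hA, hE, hA', hE', hG, s3]

theorem st_SUM : ST_SUM := by
  intro n a w E hn h1 hw1 hwn h2 h3 h4
  have := sum_key a w E n hn h1 h2 h3 h4
  linarith

end Pool.Agent.Helper16.OG
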